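import Pool.Agent.Helper4.HD.Goals

/-!
Project SQ, Dunkl block, packet POL: a power series with `P H' = Q H` and enough vanishing
coefficients is a polynomial.
-/

set_option autoImplicit false

namespace Pool.Agent.Helper60.HD

open Finset Pool.Agent.Helper4.HD

theorem pol : Pool.Agent.Helper4.HD.S_POL := by
  intro H P Q q r hqr hP hQ hP0 hE hv
  have key : ∀ k, r < k + q → PowerSeries.coeff k H = 0 := by
    intro k
    induction k using Nat.strong_induction_on with
    | _ k ih =>
      intro hk
      by_cases hkr : k ≤ r
      · exact hv k hk hkr
      · obtain ⟨N, rfl⟩ : ∃ N, k = N + 1 := ⟨k - 1, by omega⟩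
        have h1 := congrArg (PowerSeries.coeff N) hE
        rw [PowerSeries.coeff_mul, PowerSeries.coeff_mul] at h1
        have h2 : ∑ p ∈ antidiagonal N, PowerSeries.coeff p.1 (Q : PowerSeries ℂ) *
            PowerSeries.coeff p.2 H = 0 := by
          apply Finset.sum_eq_zero
          intro p hp
          rw [HasAntidiagonal.mem_antidiagonal] at hp
          rw [Polynomial.coeff_coe]
          by_cases hq : q ≤ p.1
          · rw [hQ p.1 hq, zero_mul]
          · rw [ih p.2 (by omega) (by omega), mul_zero]
        have h3 : ∑ p ∈ antidiagonal N, PowerSeries.coeff p.1 (P : PowerSeries ℂ) *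
            PowerSeries.coeff p.2 (PowerSeries.derivative ℂ H) =
              PowerSeries.coeff (N + 1) H * ((N : ℂ) + 1) := by
          rw [Finset.sum_eq_single (0, N)]
          · rw [Polynomial.coeff_coe, hP0, one_mul]
            exact PowerSeries.coeff_derivative H N
          · intro p hp hne
            rw [HasAntidiagonal.mem_antidiagonal] at hp
            rw [Polynomial.coeff_coe]
            have hp1 : 1 ≤ p.1 := by
              by_contra h
              have h0 : p.1 = 0 := by omega
              apply hne
              ext
              · exact h0
              · show p.2 = N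
                omega
            by_cases hq : q < p.1
            · rw [Polynomial.coeff_eq_zero_of_natDegree_lt (by omega), zero_mul]
            · have h4 : PowerSeries.coeff p.2 (PowerSeries.derivative ℂ H) =
                  PowerSeries.coeff (p.2 + 1) H * ((p.2 : ℂ) + 1) :=
                PowerSeries.coeff_derivative H p.2
              rw [h4, ih (p.2 + 1) (by omega) (by omega), zero_mul, mul_zero]
          · intro h
            exact absurd (HasAntidiagonal.mem_antidiagonal.2 (by simp)) h
        rw [h2, h3] at h1
        rcases mul_eq_zero.1 h1 with h | h
        · exact h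
        · exfalso
          exact Nat.cast_add_one_ne_zero N h
  refine ⟨PowerSeries.trunc (r + 1) H, ?_⟩
  ext k
  rw [Polynomial.coeff_coe, PowerSeries.coeff_trunc]
  split_ifs with h
  · rfl
  · exact (key k (by omega)).symm

end Pool.Agent.Helper60.HD
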