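import Pool.Agent.Helper80.HD.GoalsC

/-!
# Project HD: the limit
-/

set_option autoImplicit false

open Filter Topology

noncomputable section

namespace Pool.Agent.Helper60.HD

open Pool.Agent.Helper80.HD

theorem tendsto_one_div_nat : Tendsto (fun n : ℕ => 1 / (n : ℝ)) atTop (𝓝 0) :=
  tendsto_one_div_atTop_nhds_zero_nat

theorem const_root {c : ℝ} (hc : 0 < c) : Tendsto (fun n : ℕ => c ^ (1 / (n : ℝ))) atTop (𝓝 1) := by
  have h : Tendsto (fun n : ℕ => c ^ (1 / (n : ℝ))) atTop (𝓝 (c ^ (0 : ℝ))) :=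
    (Real.continuousAt_const_rpow hc.ne').tendsto.comp tendsto_one_div_nat
  rwa [Real.rpow_zero] at h

/-- an upper bound from the root test -/
theorem bound_of_root {b : ℕ → ℝ} (hb : ∀ n, 0 ≤ b n) {μ ρ : ℝ} (hρ : 0 < ρ) (hμ : μ < ρ)
    (h : Tendsto (fun n : ℕ => b n ^ (1 / (n : ℝ))) atTop (𝓝 μ)) : ∃ C : ℝ, 0 < C ∧ ∀ n, b n ≤ C * ρ ^ n := by
  have h1 : ∀ᶠ n : ℕ in atTop, b n ^ (1 / (n : ℝ)) < ρ := h.eventually (gt_mem_nhds hμ)
  obtain ⟨n0, hn0⟩ := eventually_atTop.1 h1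
  have h2 : ∀ n, max n0 1 ≤ n → b n ≤ ρ ^ n := by
    intro n hn
    have h3 := hn0 n (le_trans (le_max_left _ _) hn)
    have hn1 : 1 ≤ n := le_trans (le_max_right _ _) hn
    have hn' : (n : ℝ) ≠ 0 := by
      have : (0 : ℝ) < n := by exact_mod_cast hn1
      exact this.ne'
    have h4 : (b n ^ (1 / (n : ℝ))) ^ (n : ℝ) ≤ ρ ^ (n : ℝ) :=
      Real.rpow_le_rpow (Real.rpow_nonneg (hb n) _) h3.le (Nat.cast_nonneg n)
    rw [← Real.rpow_mul (hb n), one_div_mul_cancel hn', Real.rpow_one, Real.rpow_natCast] at h4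
    exact h4
  refine ⟨1 + ∑ i ∈ Finset.range (max n0 1), b i / ρ ^ i, ?_, fun n => ?_⟩
  · have : 0 ≤ ∑ i ∈ Finset.range (max n0 1), b i / ρ ^ i :=
      Finset.sum_nonneg (fun i _ => div_nonneg (hb i) (pow_nonneg hρ.le _))
    linarith
  · have hS : 0 ≤ ∑ i ∈ Finset.range (max n0 1), b i / ρ ^ i :=
      Finset.sum_nonneg (fun i _ => div_nonneg (hb i) (pow_nonneg hρ.le _))
    rcases le_or_gt (max n0 1) n with hn | hn
    · have h3 := h2 n hn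
      have h4 : 0 ≤ (∑ i ∈ Finset.range (max n0 1), b i / ρ ^ i) * ρ ^ n :=
        mul_nonneg hS (pow_nonneg hρ.le _)
      linarith
    · have h3 : b n / ρ ^ n ≤ ∑ i ∈ Finset.range (max n0 1), b i / ρ ^ i :=
        Finset.single_le_sum (f := fun i => b i / ρ ^ i)
          (fun i _ => div_nonneg (hb i) (pow_nonneg hρ.le _)) (Finset.mem_range.2 hn)
      rw [div_le_iff₀ (pow_pos hρ n)] at h3
      have h4 : 0 ≤ ρ ^ n := pow_nonneg hρ.le _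
      linarith

/-- squeezing roots -/
theorem root_squeeze {M b : ℕ → ℝ} {α c : ℝ} (hα : 0 < α) (hc : 0 < c) (hb0 : ∀ n, 0 ≤ b n)
    (hM0 : ∀ n, 0 ≤ M n)
    (hb : Tendsto (fun n : ℕ => b n ^ (1 / (n : ℝ))) atTop (𝓝 α)) (hlow : ∀ n, c * b n ≤ M n)
    (hup : ∀ ρ : ℝ, α < ρ → ∃ C : ℝ, 0 < C ∧ ∀ n, M n ≤ C * ρ ^ n) :
    Tendsto (fun n : ℕ => M n ^ (1 / (n : ℝ))) atTop (𝓝 α) := by
  rw [tendsto_order]
  constructor
  · intro a ha
    have h1 : Tendsto (fun n : ℕ => (c * b n) ^ (1 / (n : ℝ))) atTop (𝓝 α) := by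
      have h2 := (const_root hc).mul hb
      rw [one_mul] at h2
      refine h2.congr (fun n => ?_)
      rw [Real.mul_rpow hc.le (hb0 n)]
    filter_upwards [h1.eventually (lt_mem_nhds ha)] with n hn
    refine hn.trans_le (Real.rpow_le_rpow (mul_nonneg hc.le (hb0 n)) (hlow n) (by positivity))
  · intro a ha
    obtain ⟨ρ, hρ1, hρ2⟩ := exists_between ha
    obtain ⟨C, hC, hCM⟩ := hup ρ hρ1
    have hρ0 : 0 < ρ := hα.trans hρ1
    have h1 : Tendsto (fun n : ℕ => C ^ (1 / (n : ℝ)) * ρ) atTop (𝓝 ρ) := by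
      have h2 := (const_root hC).mul_const ρ
      rwa [one_mul] at h2
    filter_upwards [h1.eventually (gt_mem_nhds hρ2), eventually_ge_atTop 1] with n hn hn1
    refine lt_of_le_of_lt ?_ hn
    have hn' : (n : ℝ) ≠ 0 := by
      have : (0 : ℝ) < n := by exact_mod_cast hn1
      exact this.ne'
    have h3 : M n ^ (1 / (n : ℝ)) ≤ (C * ρ ^ n) ^ (1 / (n : ℝ)) :=
      Real.rpow_le_rpow (hM0 n) (hCM n) (by positivity)
    rw [Real.mul_rpow hC.le (pow_nonneg hρ0.le _), ← Real.rpow_natCast ρ n,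
      ← Real.rpow_mul hρ0.le, mul_one_div_cancel hn', Real.rpow_one] at h3
    exact h3

theorem sum_one (f : Fin (0 + 1) → ℝ) : ∑ i, f i = f 0 := Fin.sum_univ_one f

theorem rec_shift {k : ℕ} {a : Fin (0 + 1) → ℤ} {E : (Fin (k + 1) → ℕ) → ℝ}
    {D : (Fin k → ℕ) → ℝ} {B C₀ : ℝ} (h : RecData k 0 a E D B C₀) :
    RecData k 1 ![0, a 0] E D B C₀ where
  am := by
    have := h.am
    simpa using this
  B1 := h.B1
  C0 := h.C0
  symE := h.symE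
  symD := h.symD
  E0 := h.E0
  D1 := h.D1
  relE := by
    intro j J
    have h1 := h.relE (j + 1) J
    rw [sum_one, sum_one] at h1
    rw [Fin.sum_univ_two, Fin.sum_univ_two]
    simp only [Matrix.cons_val_zero, Matrix.cons_val_one, Int.cast_zero, zero_mul, zero_add]
    have h2 : ((1 : Fin (1 + 1)) : ℕ) = 1 := rfl
    have h3 : ((0 : Fin (0 + 1)) : ℕ) = 0 := rfl
    rw [h2]
    rw [h3, add_zero] at h1
    refine h1.trans (mul_le_mul_of_nonneg_left ?_ h.C0)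
    have h4 : 0 ≤ ∑ l : Fin k, D (fun s =>
        (Fin.cons (j + ((0 : Fin (1 + 1)) : ℕ)) J : Fin (k + 1) → ℕ) (l.succ.succAbove s)) :=
      Finset.sum_nonneg (fun l _ => zero_le_one.trans (h.D1 _))
    linarith
  relD := by
    intro j J l
    have h1 := h.relD (j + 1) J l
    rw [sum_one] at h1
    rw [Fin.sum_univ_two]
    simp only [Matrix.cons_val_zero, Matrix.cons_val_one, Int.cast_zero, zero_mul, zero_add]
    have h2 : ((1 : Fin (1 + 1)) : ℕ) = 1 := rfl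
    have h3 : ((0 : Fin (0 + 1)) : ℕ) = 0 := rfl
    rw [h2]
    rw [h3, add_zero] at h1
    exact h1
  incE := h.incE
  incD := h.incD

/-- **LAF** for `m ≥ 1` -/
theorem laf_aux (hL : S_LIM) (hD : S_SHD) (hE : S_SHE) (k m : ℕ) (a : Fin (m + 1) → ℤ)
    (E : (Fin (k + 1) → ℕ) → ℝ) (D : (Fin k → ℕ) → ℝ) (B C₀ : ℝ) (hm : 1 ≤ m)
    (hr : RecData k m a E D B C₀) : ∃ α : ℝ, IsAlgebraic ℚ α ∧ ∀ M : ℕ → ℝ,
    (∃ c₁ c₂ : ℝ, 0 < c₁ ∧ 0 < c₂ ∧ ∀ n, c₁ * (E (fun _ => n) + D (fun _ => n)) ≤ M n ∧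
      M n ≤ c₂ * (E (fun _ => n) + D (fun _ => n))) →
        Tendsto (fun n : ℕ => M n ^ (1 / (n : ℝ))) atTop (𝓝 α) := by
  classical
  obtain ⟨⟨A, hA⟩, C₁, hC₁, hDC⟩ := hD k m a E D B C₀ hm hr
  obtain ⟨⟨A', C₂, hC₂, hA'⟩, C₃, hC₃, hEC⟩ := hE k m a E D B C₀ hm hr
  set u : ℕ → (Fin k → Fin m) → ℝ := fun n J => D (fun i => n + (J i : ℕ)) with hu
  set w : ℕ → (Fin (k + 1) → Fin m) → ℝ := fun n J => E (fun i => n + (J i : ℕ)) with hw
  have hDn : ∀ n, D (fun _ => n) ≤ ‖u n‖ := by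
    intro n
    have h1 : u n (fun _ => ⟨0, hm⟩) = D (fun _ => n) := by simp [hu]
    rw [← h1]
    exact (le_abs_self _).trans (norm_le_pi_norm (u n) _)
  have hEn : ∀ n, E (fun _ => n) ≤ ‖w n‖ := by
    intro n
    have h1 : w n (fun _ => ⟨0, hm⟩) = E (fun _ => n) := by simp [hw]
    rw [← h1]
    exact (le_abs_self _).trans (norm_le_pi_norm (w n) _)
  have hD0 : ∀ n, 0 ≤ D (fun _ => n) := fun n => zero_le_one.trans (hr.D1 _)
  have hun : ∀ n, ‖u n‖ ≤ C₁ * D (fun _ => n) := by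
    intro n
    rw [pi_norm_le_iff_of_nonneg (mul_nonneg (by linarith) (hD0 n))]
    intro J
    rw [Real.norm_eq_abs, abs_of_nonneg (zero_le_one.trans (hr.D1 _))]
    exact hDC n (fun i => (J i : ℕ)) (fun i => (J i).2.le)
  have hwn : ∀ n, ‖w n‖ ≤ C₃ * (E (fun _ => n) + D (fun _ => n)) := by
    intro n
    rw [pi_norm_le_iff_of_nonneg (mul_nonneg (by linarith) (add_nonneg (hr.E0 _) (hD0 n)))]
    intro J
    rw [Real.norm_eq_abs, abs_of_nonneg (hr.E0 _)]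
    exact hEC n (fun i => (J i : ℕ)) (fun i => (J i).2.le)
  have hu1 : ∀ n, 1 ≤ ‖u n‖ := fun n => (hr.D1 _).trans (hDn n)
  -- the degrees
  obtain ⟨μ₁, hμ₁, halg₁, hlim₁⟩ : ∃ μ : ℝ, 0 < μ ∧ IsAlgebraic ℚ μ ∧
      Tendsto (fun n : ℕ => ‖u n‖ ^ (1 / (n : ℝ))) atTop (𝓝 μ) := by
    rcases hL (Fin k → Fin m) A u 0 le_rfl (by
      intro ρ hρ
      refine ⟨0, fun n => ?_⟩
      have h1 : u (n + 1) = (A.map (algebraMap ℚ ℝ)).mulVec (u n) := hA n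
      rw [h1, sub_self, norm_zero, zero_mul]) with h | h
    · exfalso
      obtain ⟨C, hC⟩ := h (1 / 2) (by norm_num)
      have h1 : Tendsto (fun n : ℕ => C * (1 / 2 : ℝ) ^ n) atTop (𝓝 (C * 0)) :=
        (tendsto_pow_atTop_nhds_zero_of_lt_one (by norm_num) (by norm_num)).const_mul C
      rw [mul_zero] at h1
      obtain ⟨n, hn⟩ := (h1.eventually (gt_mem_nhds (zero_lt_one' ℝ))).exists
      have := (hu1 n).trans (hC n)
      linarith
    · exact h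
  have hub : ∀ ρ : ℝ, μ₁ < ρ → ∃ C : ℝ, 0 < C ∧ ∀ n, ‖u n‖ ≤ C * ρ ^ n := fun ρ hρ =>
    bound_of_root (fun n => norm_nonneg _) (hμ₁.trans hρ) hρ hlim₁
  -- the heights
  have hLw := hL (Fin (k + 1) → Fin m) A' w μ₁ hμ₁.le (by
    intro ρ hρ
    obtain ⟨C, hC, hCu⟩ := hub ρ hρ
    refine ⟨C₂ * C, fun n => ?_⟩
    refine (hA' n).trans ?_
    rw [mul_assoc]
    exact mul_le_mul_of_nonneg_left ((hDn n).trans (hCu n)) hC₂)
  -- the final step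
  have final : ∀ (α : ℝ) (b : ℕ → ℝ), μ₁ ≤ α → (∀ n, 0 ≤ b n) →
      Tendsto (fun n : ℕ => b n ^ (1 / (n : ℝ))) atTop (𝓝 α) →
      (∃ c : ℝ, 0 < c ∧ ∀ n, c * b n ≤ E (fun _ => n) + D (fun _ => n)) →
      (∀ ρ : ℝ, α < ρ → ∃ C : ℝ, ∀ n, ‖w n‖ ≤ C * ρ ^ n) → ∀ M : ℕ → ℝ,
      (∃ c₁ c₂ : ℝ, 0 < c₁ ∧ 0 < c₂ ∧ ∀ n, c₁ * (E (fun _ => n) + D (fun _ => n)) ≤ M n ∧
      M n ≤ c₂ * (E (fun _ => n) + D (fun _ => n))) →
        Tendsto (fun n : ℕ => M n ^ (1 / (n : ℝ))) atTop (𝓝 α) := by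
    intro α b hα hb0 hb hlow hwup M hM
    obtain ⟨c, hc, hcb⟩ := hlow
    obtain ⟨c₁, c₂, hc₁, hc₂, hM⟩ := hM
    have hα0 : 0 < α := hμ₁.trans_le hα
    have hM0 : ∀ n, 0 ≤ M n := fun n =>
      (mul_nonneg hc₁.le (add_nonneg (hr.E0 _) (hD0 n))).trans (hM n).1
    refine root_squeeze hα0 (mul_pos hc₁ hc) hb0 hM0 hb (fun n => ?_) (fun ρ hρ => ?_)
    · rw [mul_assoc]
      exact (mul_le_mul_of_nonneg_left (hcb n) hc₁.le).trans (hM n).1
    · obtain ⟨C, hC⟩ := hwup ρ hρ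
      obtain ⟨C', hC', hCu⟩ := hub ρ (hα.trans_lt hρ)
      refine ⟨c₂ * (|C| + C'), mul_pos hc₂ (add_pos_of_nonneg_of_pos (abs_nonneg _) hC'),
        fun n => ?_⟩
      refine (hM n).2.trans ?_
      rw [mul_assoc]
      refine mul_le_mul_of_nonneg_left ?_ hc₂.le
      have h1 := (hEn n).trans (hC n)
      have h2 := (hDn n).trans (hCu n)
      have h3 : C * ρ ^ n ≤ |C| * ρ ^ n :=
        mul_le_mul_of_nonneg_right (le_abs_self C) (pow_nonneg (hα0.trans hρ).le _)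
      linarith
  have hC₁0 : 0 < C₁ := by linarith
  have hC₃0 : 0 < C₃ := by linarith
  rcases hLw with h | ⟨μ₂, hμ₂, halg₂, hlim₂⟩
  · refine ⟨μ₁, halg₁, final μ₁ (fun n => ‖u n‖) le_rfl (fun n => norm_nonneg _) hlim₁
      ⟨C₁⁻¹, inv_pos.2 hC₁0, fun n => ?_⟩ h⟩
    rw [inv_mul_le_iff₀ hC₁0]
    refine (hun n).trans (mul_le_mul_of_nonneg_left ?_ hC₁0.le)
    have := hr.E0 (fun _ => n)
    linarith
  · refine ⟨μ₂, halg₂, final μ₂ (fun n => ‖w n‖) hμ₂.le (fun n => norm_nonneg _) hlim₂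
      ⟨C₃⁻¹, inv_pos.2 hC₃0, fun n => ?_⟩ (fun ρ hρ => ?_)⟩
    · rw [inv_mul_le_iff₀ hC₃0]
      exact hwn n
    · obtain ⟨C, _, hC⟩ := bound_of_root (b := fun n => ‖w n‖) (fun n => norm_nonneg _)
        ((hμ₁.trans hμ₂).trans hρ) hρ hlim₂
      exact ⟨C, hC⟩

/-- **LAF.** -/
theorem laf (hL : S_LIM) (hD : S_SHD) (hE : S_SHE) : S_LAF := by
  intro k m a E D B C₀ hr
  rcases Nat.eq_zero_or_pos m with hm | hm
  · subst hm
    exact laf_aux hL hD hE k 1 _ E D B C₀ le_rfl (rec_shift hr)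
  · exact laf_aux hL hD hE k m a E D B C₀ hm hr

end Pool.Agent.Helper60.HD
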