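import Pool.Agent.Helper80.HD.GoalsA

/-!
# Project HD: the points `z_i` are rational over `K(u, x)`
-/

set_option autoImplicit false

open MvPolynomial

noncomputable section

namespace Pool.Agent.Helper60.HD

open Pool.Agent.Helper80.HD

section tools

variable {K : Type} [Field K] [Algebra K ℂ] {σ : Type}

theorem eval_line (w v : σ → ℂ) (s : ℂ) (Q : MvPolynomial σ K) :
    (aeval (fun q => Polynomial.C (w q) + Polynomial.X * Polynomial.C (v q)) Q :
      Polynomial ℂ).eval s = aeval (fun q => w q + s * v q) Q := by
  induction Q using MvPolynomial.induction_on with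
  | C a =>
    rw [← algebraMap_eq, AlgHom.commutes, AlgHom.commutes, Polynomial.algebraMap_apply,
      Polynomial.eval_C]
  | add P Q hP hQ => simp only [map_add, Polynomial.eval_add, hP, hQ]
  | mul_X P q hP =>
    rw [map_mul, map_mul, aeval_X, aeval_X, Polynomial.eval_mul, hP, Polynomial.eval_add,
      Polynomial.eval_mul, Polynomial.eval_C, Polynomial.eval_C, Polynomial.eval_X]

theorem chain [Fintype σ] (w v : σ → ℂ) (Q : MvPolynomial σ K) :
    (Polynomial.derivative (aeval (fun q => Polynomial.C (w q) + Polynomial.X * Polynomial.C (v q)) Q :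
      Polynomial ℂ)).eval 0 = ∑ q, v q * aeval w (pderiv q Q) := by
  classical
  induction Q using MvPolynomial.induction_on with
  | C a =>
    rw [← algebraMap_eq, AlgHom.commutes, Polynomial.algebraMap_apply, Polynomial.derivative_C]
    simp
  | add P Q hP hQ =>
    simp only [map_add, Polynomial.eval_add, hP, hQ, mul_add, Finset.sum_add_distrib]
  | mul_X P q hP =>
    have h0 := eval_line w v 0 P
    simp only [zero_mul, add_zero] at h0
    simp only [map_mul, aeval_X, Polynomial.derivative_mul, Polynomial.eval_add,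
      Polynomial.eval_mul, hP, h0]
    simp only [Polynomial.derivative_add, Polynomial.derivative_mul, Polynomial.derivative_C,
      Polynomial.derivative_X, Polynomial.eval_add, Polynomial.eval_mul, Polynomial.eval_C,
      Polynomial.eval_X, Polynomial.eval_zero, Polynomial.eval_one, zero_mul, mul_zero, add_zero,
      zero_add, one_mul, pderiv_mul, map_add, map_mul, aeval_X, pderiv_X, mul_add,
      Finset.sum_add_distrib, Finset.sum_mul]
    congr 1
    · apply Finset.sum_congr rfl
      intro q' _
      ring
    · rw [Finset.sum_eq_single q]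
      · simp [mul_comm]
      · intro b _ hb
        rw [Pi.single_eq_of_ne hb.symm]
        simp
      · intro h
        exact absurd (Finset.mem_univ q) h

theorem not_dvd [CharZero K] {P : MvPolynomial σ K} {i : σ} (h : 0 < P.degreeOf i) :
    ¬ P ∣ pderiv i P := by
  classical
  have hP : P ≠ 0 := by
    rintro rfl
    simp at h
  have hsup := degreeOf_eq_sup i P
  have hne : P.support.Nonempty := by
    rw [Finset.nonempty_iff_ne_empty, Ne, support_eq_empty]
    exact hP
  obtain ⟨m, hm, hmi⟩ := Finset.exists_mem_eq_sup P.support hne (fun m => m i)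
  rw [← hsup] at hmi
  have hmpos : 1 ≤ m i := by omega
  have hsub : m - Finsupp.single i 1 + Finsupp.single i 1 = m := by
    apply tsub_add_cancel_of_le
    rw [Finsupp.single_le_iff]
    exact hmpos
  have hD : pderiv i P ≠ 0 := by
    intro h0
    have h1 := coeff_pderiv (i := i) P (m - Finsupp.single i 1)
    rw [h0, hsub, coeff_zero] at h1
    have h2 : coeff m P ≠ 0 := mem_support_iff.1 hm
    have h3 : (((m - Finsupp.single i 1 : σ →₀ ℕ) i : K) + 1) ≠ 0 := by
      exact Nat.cast_add_one_ne_zero _
    exact mul_ne_zero h2 h3 h1.symm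
  have hlt : (pderiv i P).degreeOf i < P.degreeOf i := by
    rw [degreeOf_lt_iff h]
    intro m' hm'
    rw [mem_support_iff, coeff_pderiv] at hm'
    have h1 : coeff (m' + Finsupp.single i 1) P ≠ 0 := left_ne_zero_of_mul hm'
    have h2 := monomial_le_degreeOf i (mem_support_iff.2 h1)
    simp at h2
    omega
  rintro ⟨Q, hQ⟩
  have hQ0 : Q ≠ 0 := by
    rintro rfl
    rw [mul_zero] at hQ
    exact hD hQ
  rw [hQ, degreeOf_mul_eq hP hQ0] at hlt
  omega

theorem aeval_mem_field (E : IntermediateField K ℂ) (w : σ → ℂ) (hw : ∀ q, w q ∈ E)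
    (Q : MvPolynomial σ K) : aeval w Q ∈ E := by
  induction Q using MvPolynomial.induction_on with
  | C a =>
    rw [← algebraMap_eq, AlgHom.commutes]
    exact E.algebraMap_mem a
  | add P Q hP hQ => rw [map_add]; exact E.add_mem hP hQ
  | mul_X P q hP => rw [map_mul, aeval_X]; exact E.mul_mem hP (hw q)

theorem eval_aeval {τ : Type} (T : τ → ℂ) (g : σ → MvPolynomial τ ℂ) (Q : MvPolynomial σ K) :
    eval T (aeval g Q) = aeval (fun q => eval T (g q)) Q := by
  induction Q using MvPolynomial.induction_on with
  | C a =>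
    rw [← algebraMap_eq, AlgHom.commutes, AlgHom.commutes, MvPolynomial.algebraMap_apply, eval_C]
  | add P Q hP hQ => simp only [map_add, hP, hQ]
  | mul_X P q hP => simp only [map_mul, aeval_X, hP]

end tools

/-- the first block on the hyperplane orthogonal to `x`, the other blocks `u` -/
def pt {k N : ℕ} (x : Fin (N + 1) → ℂ) (j0 : Fin (N + 1)) (u : Fin k × Fin (N + 1) → ℂ)
    (T : Fin (N + 1) → ℂ) : Fin (k + 1) × Fin (N + 1) → ℂ := fun q =>
  Fin.cases (motive := fun _ => ℂ)
    (if q.2 = j0 then -∑ j ∈ Finset.univ.erase j0, T j * (x j / x j0) else T q.2)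
    (fun i => u (i, q.2)) q.1

/-- **TRZ.** -/
theorem trz (hG : S_GENV) (hR : S_RES) : S_TRZ := by
  classical
  intro K _ _ _ F k N x z j0 p c hFG htr hz hx hx0 hp hc u hu i
  set Z : Fin (k + 1) → Fin (N + 1) → ℂ := Fin.cons x z with hZdef
  set p' : Fin (k + 1) → Fin (N + 1) := Fin.cons j0 p with hp'
  have hZ : ∀ i, Big K F (Z i) := by
    intro i
    refine Fin.cases ?_ (fun i => ?_) i
    · simpa [hZdef] using hx
    · simpa [hZdef] using hz i
  have hZp : ∀ i, Z i (p' i) ≠ 0 := by
    intro i
    refine Fin.cases ?_ (fun i => ?_) i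
    · simpa [hZdef, hp'] using hx0
    · simpa [hZdef, hp'] using hp i
  obtain ⟨hres, hirr, hdeg⟩ := hR K F k N Z hFG htr hZ
  obtain ⟨hg1, hg2⟩ := hG K F (k + 1) N Z p' c hZp
  obtain ⟨_, hg3⟩ := hg2 (fun i => (hZ i).2.1) hc
  set P := resForm K Z with hP
  have hθ : gen Z p' c = pt x j0 u (fun j => c (0, j)) := by
    funext q
    obtain ⟨i', j⟩ := q
    refine Fin.cases ?_ (fun i' => ?_) i'
    · simp [gen, pt, hZdef, hp']
    · simp [gen, pt, hZdef, hp', hu]
  have hug : ∀ i' : Fin k, ∑ j, u (i', j) * z i' j = 0 := by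
    intro i'
    have h1 := hg1 i'.succ
    rw [hθ] at h1
    simpa [pt, hZdef] using h1
  have hv : Vanishes K Z P := (hres P).1 dvd_rfl
  set a : Fin (k + 1) × Fin (N + 1) := (i.succ, p i) with ha
  have hdega : 0 < P.degreeOf a := hdeg i.succ (p i) (by simpa [hZdef] using hp i)
  have hnd := not_dvd hdega
  have hval : aeval (pt x j0 u (fun j => c (0, j))) (pderiv a P) ≠ 0 := by
    intro h0
    apply hnd
    rw [hres, hg3, hθ]
    exact h0
  -- specialization
  set g : Fin (k + 1) × Fin (N + 1) → MvPolynomial (Fin (N + 1)) ℂ := fun q =>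
    Fin.cases (motive := fun _ => MvPolynomial (Fin (N + 1)) ℂ)
      (if q.2 = j0 then -∑ j ∈ Finset.univ.erase j0, X j * C (x j / x j0) else X q.2)
      (fun i => C (u (i, q.2))) q.1 with hg
  have hge : ∀ T : Fin (N + 1) → ℂ, (fun q => eval T (g q)) = pt x j0 u T := by
    intro T
    funext q
    obtain ⟨i', j⟩ := q
    refine Fin.cases ?_ (fun i' => ?_) i'
    · by_cases hj : j = j0
      · simp [hg, pt, hj]
      · simp [hg, pt, hj]
    · simp [hg, pt]
  have hRne : aeval g (pderiv a P) ≠ 0 := by
    intro h0
    apply hval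
    rw [← hge, ← eval_aeval, h0, map_zero]
  obtain ⟨T, hT, hTne⟩ : ∃ T : Fin (N + 1) → ℂ, (∀ j, T j ∈ Set.range (Nat.cast : ℕ → ℂ)) ∧
      aeval (pt x j0 u T) (pderiv a P) ≠ 0 := by
    by_contra hcon
    push Not at hcon
    apply hRne
    refine funext_set (fun _ => Set.range (Nat.cast : ℕ → ℂ))
      (fun _ => Set.infinite_range_of_injective Nat.cast_injective) (fun T hT => ?_)
    rw [map_zero, eval_aeval, hge]
    exact hcon T (fun j => hT j (Set.mem_univ j))
  set w := pt x j0 u T with hw
  set E := LK K u ⊔ ratioField K x with hE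
  have hwE : ∀ q, w q ∈ E := by
    rintro ⟨i', j⟩
    refine Fin.cases ?_ (fun i' => ?_) i'
    · have hTE : ∀ j, T j ∈ E := by
        intro j
        obtain ⟨n, hn⟩ := hT j
        rw [← hn]
        exact natCast_mem E n
      have hxE : ∀ j, x j / x j0 ∈ E := by
        intro j
        exact (le_sup_right : ratioField K x ≤ E)
          (IntermediateField.subset_adjoin K _ ⟨j, j0, rfl⟩)
      simp only [hw, pt, Fin.cases_zero]
      split_ifs with hj
      · exact E.neg_mem (E.sum_mem (fun j _ => E.mul_mem (hTE j) (hxE j)))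
      · exact hTE j
    · simp only [hw, pt, Fin.cases_succ]
      exact (le_sup_left : LK K u ≤ E)
        (IntermediateField.subset_adjoin K _ (Set.mem_range_self (i', j)))
  have hwZ : ∀ i', ∑ j, w (i', j) * Z i' j = 0 := by
    intro i'
    refine Fin.cases ?_ (fun i' => ?_) i'
    · simp only [hw, pt, Fin.cases_zero, hZdef, Fin.cons_zero]
      rw [← Finset.add_sum_erase _ _ (Finset.mem_univ j0), if_pos rfl]
      have h1 : ∑ j ∈ Finset.univ.erase j0, (if j = j0 then
          -∑ j ∈ Finset.univ.erase j0, T j * (x j / x j0) else T j) * x j =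
          ∑ j ∈ Finset.univ.erase j0, T j * x j := by
        apply Finset.sum_congr rfl
        intro j hj
        rw [if_neg (Finset.ne_of_mem_erase hj)]
      rw [h1, neg_mul, Finset.sum_mul, neg_add_eq_zero]
      apply Finset.sum_congr rfl
      intro j _
      field_simp
    · simpa [hw, pt, hZdef] using hug i'
  have hrel : ∀ j, z i (p i) * aeval w (pderiv (i.succ, j) P) =
      z i j * aeval w (pderiv a P) := by
    intro j
    set b : Fin (k + 1) × Fin (N + 1) := (i.succ, j) with hb
    set v : Fin (k + 1) × Fin (N + 1) → ℂ := fun q =>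
      (if q = a then -z i j else 0) + (if q = b then z i (p i) else 0) with hvdef
    have hvZ : ∀ i', ∑ j', v (i', j') * Z i' j' = 0 := by
      intro i'
      by_cases hi' : i' = i.succ
      · subst hi'
        simp only [hvdef, ha, hb, Prod.mk.injEq, true_and, add_mul, ite_mul, zero_mul,
          Finset.sum_add_distrib, Finset.sum_ite_eq', Finset.mem_univ, if_true, hZdef,
          Fin.cons_succ]
        ring
      · simp only [hvdef, ha, hb, Prod.mk.injEq, hi', false_and, if_false, add_zero, zero_mul,
          Finset.sum_const_zero]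
    have hpoly : (aeval (fun q => Polynomial.C (w q) + Polynomial.X * Polynomial.C (v q)) P :
        Polynomial ℂ) = 0 := by
      apply Polynomial.funext
      intro s
      rw [eval_line, Polynomial.eval_zero]
      apply hv
      intro i'
      have h1 := hwZ i'
      have h2 := hvZ i'
      have h3 : ∑ j', (w (i', j') + s * v (i', j')) * Z i' j' =
          ∑ j', w (i', j') * Z i' j' + s * ∑ j', v (i', j') * Z i' j' := by
        rw [Finset.mul_sum, ← Finset.sum_add_distrib]
        apply Finset.sum_congr rfl
        intro j' _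
        ring
      rw [h3, h1, h2]
      ring
    have h4 := chain w v P
    rw [hpoly] at h4
    simp only [Polynomial.derivative_zero, Polynomial.eval_zero, hvdef, add_mul, ite_mul,
      zero_mul, Finset.sum_add_distrib, Finset.sum_ite_eq', Finset.mem_univ, if_true] at h4
    linear_combination -h4
  have hratio : ∀ j, z i j / z i (p i) ∈ E := by
    intro j
    have h1 : z i j / z i (p i) = aeval w (pderiv (i.succ, j) P) / aeval w (pderiv a P) := by
      rw [div_eq_div_iff (hp i) hTne]
      linear_combination -hrel j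
    rw [h1]
    exact E.div_mem (aeval_mem_field E w hwE _) (aeval_mem_field E w hwE _)
  unfold ratioField
  rw [IntermediateField.adjoin_le_iff]
  rintro y ⟨j, j', rfl⟩
  have h1 : z i j / z i j' = (z i j / z i (p i)) / (z i j' / z i (p i)) := by
    rw [div_div_div_cancel_right₀ (hp i)]
  rw [h1]
  exact E.div_mem (hratio j) (hratio j')

end Pool.Agent.Helper60.HD
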